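import Pool.Agent.U624.KT.Stm

/-!
# Project KT, package TWO: sums of two squares
-/

set_option autoImplicit false

open scoped Quaternion
open Quaternion (normSq)

namespace Pool.Agent.U467.KT.TWO

open Pool.Agent.U624.KT

theorem R_le_R2 {x : K} (h : x ∈ R) : x ∈ R2 := ⟨0, by simpa using h⟩

theorem half_mem {x : K} (h : 2 * x ∈ R) : x ∈ R2 := ⟨1, by simpa using h⟩

theorem two_mem : (2 : K) ∈ R := by
  have := R.add_mem R.one_mem R.one_mem
  rwa [one_add_one_eq_two] at this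

/-- sums of two squares in `R[1/2]` -/
def P (z : K) : Prop := ∃ x ∈ R2, ∃ y ∈ R2, x ^ 2 + y ^ 2 = z

theorem P_mul {z w : K} (hz : P z) (hw : P w) : P (z * w) := by
  obtain ⟨a, ha, b, hb, rfl⟩ := hz
  obtain ⟨c, hc, d, hd, rfl⟩ := hw
  exact ⟨a * c - b * d, R2.sub_mem (R2.mul_mem ha hc) (R2.mul_mem hb hd),
    a * d + b * c, R2.add_mem (R2.mul_mem ha hd) (R2.mul_mem hb hc), by ring⟩

theorem P_inv {z u : K} (hz : P z) (hu : u ∈ R2) (h : z * u = 1) : P u := by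
  obtain ⟨a, ha, b, hb, rfl⟩ := hz
  refine ⟨a * u, R2.mul_mem ha hu, b * u, R2.mul_mem hb hu, ?_⟩
  have : (a * u) ^ 2 + (b * u) ^ 2 = ((a ^ 2 + b ^ 2) * u) * u := by ring
  rw [this, h, one_mul]

theorem P_one : P 1 := ⟨1, R2.one_mem, 0, R2.zero_mem, by ring⟩

theorem P_sq {x : K} (hx : x ∈ R2) : P (x ^ 2) := ⟨x, hx, 0, R2.zero_mem, by ring⟩

theorem s_half : s / 2 ∈ R2 := by
  apply half_mem
  rw [mul_div_cancel₀ _ (two_ne_zero)]
  exact s_mem

theorem P_two_add : P (2 + s) :=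
  ⟨1 + s / 2, R2.add_mem R2.one_mem s_half, s / 2, s_half, by
    have := s_sq
    linear_combination (1 / 2 : K) * this⟩

theorem P_two_sub : P (2 - s) :=
  ⟨1 - s / 2, R2.sub_mem R2.one_mem s_half, s / 2, s_half, by
    have := s_sq
    linear_combination (1 / 2 : K) * this⟩

theorem inv_two_add : (2 + s) * (1 - s / 2) = 1 := by
  have := s_sq
  linear_combination (-1 / 2 : K) * this

theorem inv_two_sub : (2 - s) * (1 + s / 2) = 1 := by
  have := s_sq
  linear_combination (-1 / 2 : K) * this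

theorem RQ_mul {x y : ℍ[K]} (hx : RQ x) (hy : RQ y) : RQ (x * y) := by
  obtain ⟨a0, a1, a2, a3⟩ := hx
  obtain ⟨b0, b1, b2, b3⟩ := hy
  refine ⟨?_, ?_, ?_, ?_⟩
  · rw [Quaternion.re_mul]
    exact R2.sub_mem (R2.sub_mem (R2.sub_mem (R2.mul_mem a0 b0) (R2.mul_mem a1 b1))
      (R2.mul_mem a2 b2)) (R2.mul_mem a3 b3)
  · rw [Quaternion.imI_mul]
    exact R2.sub_mem (R2.add_mem (R2.add_mem (R2.mul_mem a0 b1) (R2.mul_mem a1 b0))
      (R2.mul_mem a2 b3)) (R2.mul_mem a3 b2)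
  · rw [Quaternion.imJ_mul]
    exact R2.add_mem (R2.add_mem (R2.sub_mem (R2.mul_mem a0 b2) (R2.mul_mem a1 b3))
      (R2.mul_mem a2 b0)) (R2.mul_mem a3 b1)
  · rw [Quaternion.imK_mul]
    exact R2.add_mem (R2.sub_mem (R2.add_mem (R2.mul_mem a0 b3) (R2.mul_mem a1 b2))
      (R2.mul_mem a2 b1)) (R2.mul_mem a3 b0)

theorem RQ_star {x : ℍ[K]} (hx : RQ x) : RQ (star x) := by
  obtain ⟨a0, a1, a2, a3⟩ := hx
  refine ⟨?_, ?_, ?_, ?_⟩
  · simpa using a0
  · simpa using a1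
  · simpa using a2
  · simpa using a3

theorem RQ_of_OS {x : ℍ[K]} (hx : OS x) : RQ x :=
  ⟨half_mem hx.1, half_mem hx.2.1, half_mem hx.2.2.1, half_mem hx.2.2.2.1⟩

theorem comm_qi {m : ℍ[K]} (h : m * qi = qi * m) : m.imJ = 0 ∧ m.imK = 0 := by
  have hJ := congrArg QuaternionAlgebra.imJ h
  have hK := congrArg QuaternionAlgebra.imK h
  rw [Quaternion.imJ_mul, Quaternion.imJ_mul] at hJ
  rw [Quaternion.imK_mul, Quaternion.imK_mul] at hK
  have e0 : qi.re = 0 := rfl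
  have e1 : qi.imI = 1 := rfl
  have e2 : qi.imJ = 0 := rfl
  have e3 : qi.imK = 0 := rfl
  rw [e0, e1, e2, e3] at hJ hK
  constructor
  · linear_combination (-1 / 2 : K) * hK
  · linear_combination (1 / 2 : K) * hJ

/-- The final computation. -/
theorem final {β g x w h m ε ε' u : _} (hx : RQ x) (hg : RQ g) (hh : RQ h) (hw0 : w.re = 0)
    (_hε : ε ∈ R) (hε' : ε' ∈ R) (hεε : ε * ε' = 1)
    (hnx : normSq x = ε ^ 2 * β ∨ normSq x = (2 - s) * ε ^ 2 * β)
    (hng : normSq g = 1 ∨ normSq g = 2 + s)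
    (hgx : g * x * qi = w * (g * x)) (hhi : h * qi = w * h)
    (hPh : P (normSq h)) (hu : u ∈ R2) (hhu : normSq h * u = 1)
    (hm : m = star h * (g * x)) : P β := by
  have hsw : star w = -w := by
    ext
    · simp [hw0]
    · simp
    · simp
    · simp
  have hsi : star qi = -qi := by
    ext
    · simp [qi]
    · simp [qi]
    · simp [qi]
    · simp [qi]
  have hsh : qi * star h = star h * w := by
    have := congrArg star hhi
    rw [star_mul, star_mul, hsw, hsi] at this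
    rw [neg_mul, mul_neg, neg_inj] at this
    exact this
  have hcomm : m * qi = qi * m := by
    rw [hm, mul_assoc, hgx, ← mul_assoc, ← hsh, mul_assoc]
  obtain ⟨hJ, hK⟩ := comm_qi hcomm
  have hmQ : RQ m := by
    rw [hm]
    exact RQ_mul (RQ_star hh) (RQ_mul hg hx)
  have hnm : P (normSq m) := by
    rw [Quaternion.normSq_def', hJ, hK]
    exact ⟨m.re, hmQ.1, m.imI, hmQ.2.1, by ring⟩
  have hnm' : normSq m = normSq h * (normSq g * normSq x) := by
    rw [hm, map_mul, map_mul, Quaternion.normSq_star]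
  -- the inverse of the factor of `g`
  obtain ⟨gi, hgi, hgg⟩ : ∃ gi, P gi ∧ normSq g * gi = 1 := by
    rcases hng with hng | hng
    · exact ⟨1, P_one, by rw [hng, one_mul]⟩
    · refine ⟨1 - s / 2, P_inv P_two_add (R2.sub_mem R2.one_mem s_half) inv_two_add, ?_⟩
      rw [hng, inv_two_add]
  obtain ⟨xi, hxi, hxx⟩ : ∃ xi, P xi ∧ normSq x * xi = β := by
    have hP : P (ε' ^ 2) := P_sq (R_le_R2 hε')
    rcases hnx with hnx | hnx
    · refine ⟨ε' ^ 2, hP, ?_⟩
      rw [hnx]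
      linear_combination (β * (ε * ε' + 1)) * hεε
    · refine ⟨(1 + s / 2) * ε' ^ 2, P_mul (P_inv P_two_sub (R2.add_mem R2.one_mem s_half)
        inv_two_sub) hP, ?_⟩
      rw [hnx]
      linear_combination (β * (ε * ε') ^ 2) * inv_two_sub + (β * (ε * ε' + 1)) * hεε
  have hui : P u := P_inv hPh hu hhu
  have : β = normSq m * u * gi * xi := by
    rw [hnm']
    linear_combination (-1 : K) * hxx - (normSq g * gi * normSq x * xi) * hhu -
      (normSq x * xi) * hgg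
  rw [this]
  exact P_mul (P_mul (P_mul hnm hui) hgi) hxi

/-- `σ + i` -/
noncomputable def e (σ : ℤ) : ℍ[K] := ⟨(σ : K), 1, 0, 0⟩

/-- the left ideal `OS β + OS (σ + i)` -/
noncomputable def Id (h : S_ORD) (β : K) (σ : ℤ) : AddSubgroup ℍ[K] where
  carrier := {x | ∃ t t', OS t ∧ OS t' ∧ x = t * (β : ℍ[K]) + t' * e σ}
  zero_mem' := by
    have h0 : OS 0 := by
      have := h.1 0 R.zero_mem
      simpa using this
    exact ⟨0, 0, h0, h0, by simp⟩
  add_mem' := by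
    rintro _ _ ⟨t, t', ht, ht', rfl⟩ ⟨r, r', hr, hr', rfl⟩
    exact ⟨t + r, t' + r', h.2.2.1 _ _ ht hr, h.2.2.1 _ _ ht' hr', by
      rw [add_mul, add_mul]; abel⟩
  neg_mem' := by
    rintro _ ⟨t, t', ht, ht', rfl⟩
    exact ⟨-t, -t', h.2.2.2.1 _ ht, h.2.2.2.1 _ ht', by
      rw [neg_mul, neg_mul]; abel⟩

theorem OS_qi (h : S_ORD) : OS qi :=
  h.2.1 _ R.zero_mem R.one_mem R.zero_mem R.zero_mem

theorem OS_one (h : S_ORD) : OS 1 := by
  have := h.1 1 R.one_mem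
  simpa using this

theorem OS_e (h : S_ORD) (σ : ℤ) : OS (e σ) :=
  h.2.1 _ (intCast_mem R σ) R.one_mem R.zero_mem R.zero_mem

theorem e_qi (σ : ℤ) : e σ * qi = qi * e σ := by
  ext <;> simp [e, qi]

theorem norm_e (σ : ℤ) : normSq (e σ) = (σ : K) ^ 2 + 1 := by
  rw [Quaternion.normSq_def']
  simp [e]

theorem isLeft (h : S_ORD) (β : K) (σ : ℤ) : IsLeft (Id h β σ) := by
  rintro u hu _ ⟨t, t', ht, ht', rfl⟩
  exact ⟨u * t, u * t', h.2.2.2.2.1 _ _ hu ht, h.2.2.2.2.1 _ _ hu ht', by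
    rw [mul_add, mul_assoc, mul_assoc]⟩

theorem stable (h : S_ORD) (β : K) (σ : ℤ) : ∀ x ∈ Id h β σ, x * qi ∈ Id h β σ := by
  rintro _ ⟨t, t', ht, ht', rfl⟩
  refine ⟨t * qi, t' * qi, h.2.2.2.2.1 _ _ ht (OS_qi h), h.2.2.2.2.1 _ _ ht' (OS_qi h), ?_⟩
  rw [add_mul, mul_assoc, mul_assoc, mul_assoc, mul_assoc, e_qi, Quaternion.coe_commutes]

theorem hasNorm (h : S_ORD) {β β' : K} {σ c m : ℤ} {p : ℕ} (hβ : β ∈ R) (hβ' : β' ∈ R)
    (hp : β * β' = p) (hc : σ ^ 2 + 1 = p * c) (hm : (p : ℤ) = 2 * m + 1) :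
    HasNorm (Id h β σ) β := by
  obtain ⟨hR, hQ, hadd, hneg, hmul, hstar, hnorm, -⟩ := id h
  have hcK : ((σ : K) ^ 2 + 1) = β * β' * c := by
    rw [hp]; exact_mod_cast hc
  have hmK : (β * β' : K) = 2 * m + 1 := by
    rw [hp]; exact_mod_cast hm
  constructor
  · rintro _ ⟨t, t', ht, ht', rfl⟩
    refine ⟨normSq t * β + normSq t' * β' * c + 2 * (t * star (t' * e σ)).re, ?_, ?_⟩
    · exact R.add_mem (R.add_mem (R.mul_mem (hnorm _ ht) hβ)
        (R.mul_mem (R.mul_mem (hnorm _ ht') hβ') (intCast_mem R c)))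
        (hmul _ _ ht (hstar _ (hmul _ _ ht' (OS_e h σ)))).1
    · rw [Quaternion.normSq_add, map_mul, map_mul, norm_e, Quaternion.normSq_coe, hcK,
        Quaternion.mul_coe_eq_smul, smul_mul_assoc, Quaternion.re_smul, smul_eq_mul]
      ring
  · refine ⟨3, ![β' - m, m, -m], ![(β : ℍ[K]), (β : ℍ[K]) + qi * e σ, qi * e σ], ?_, ?_, ?_⟩
    · intro i
      fin_cases i
      · exact R.sub_mem hβ' (intCast_mem R m)
      · exact intCast_mem R m
      · exact R.neg_mem (intCast_mem R m)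
    · have h0 : OS 0 := by
        have := h.1 0 R.zero_mem
        simpa using this
      intro i
      fin_cases i
      · exact ⟨1, 0, OS_one h, h0, by simp⟩
      · exact ⟨1, qi, OS_one h, OS_qi h, by simp⟩
      · exact ⟨0, qi, h0, OS_qi h, by simp⟩
    · rw [Fin.sum_univ_three]
      have e1 : normSq ((β : ℍ[K]) + qi * e σ) = β ^ 2 + normSq (qi * e σ) - 2 * β := by
        rw [Quaternion.normSq_add, Quaternion.normSq_coe, Quaternion.coe_mul_eq_smul,
          Quaternion.re_smul]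
        have : (star (qi * e σ)).re = -1 := by
          rw [Quaternion.re_star, Quaternion.re_mul]
          simp [qi, e]
        rw [this]
        simp
        ring
      show (β' - (m : K)) * normSq (β : ℍ[K]) + (m : K) * normSq ((β : ℍ[K]) + qi * e σ) +
        (-(m : K)) * normSq (qi * e σ) = β
      rw [e1, Quaternion.normSq_coe]
      linear_combination β * hmK

theorem exists_sigma {p : ℕ} (hp : p.Prime) (h4 : p % 4 = 1) :
    ∃ σ c : ℤ, σ ^ 2 + 1 = p * c := by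
  have : Fact p.Prime := ⟨hp⟩
  obtain ⟨y, hy⟩ := ZMod.exists_sq_eq_neg_one_iff.2 (show p % 4 ≠ 3 by omega)
  obtain ⟨σ, rfl⟩ := ZMod.intCast_surjective y
  have : ((σ ^ 2 + 1 : ℤ) : ZMod p) = 0 := by
    push_cast
    rw [sq, ← hy]
    ring
  obtain ⟨c, hc⟩ := (ZMod.intCast_zmod_eq_zero_iff_dvd _ _).1 this
  exact ⟨σ, c, hc⟩

theorem t_TWO (h1 : S_ORD) (h2 : S_CONJ) (h3 : S_SMALL) : S_TWO := by
  intro β β' p hβ hβ' hTP hp h4 hbb
  obtain ⟨σ, c, hc⟩ := exists_sigma hp h4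
  obtain ⟨m, hm⟩ : ∃ m : ℤ, (p : ℤ) = 2 * m + 1 := ⟨(p : ℤ) / 2, by omega⟩
  have hni : normSq qi = 1 := by
    rw [Quaternion.normSq_def']
    simp [qi]
  obtain ⟨x, hx, g, w, ε, hε, ε', hε', hεε, hnx, hng, hgQ, hwO, hw0, hgx⟩ :=
    h2 (Id h1 β σ) β qi hTP (isLeft h1 β σ) (hasNorm h1 hβ hβ' hbb hc hm) rfl
      (by rw [hni]; exact R.one_mem) (stable h1 β σ)
  have hβ0 : β ≠ 0 := by
    intro h0
    rw [h0, zero_mul] at hbb
    exact hp.ne_zero (by exact_mod_cast hbb.symm)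
  have hε0 : ε ≠ 0 := by
    rintro rfl
    rw [zero_mul] at hεε
    exact zero_ne_one hεε
  have hns : (2 - s : K) ≠ 0 := by
    intro h0
    have := inv_two_sub
    rw [h0, zero_mul] at this
    exact zero_ne_one this
  have hps : (2 + s : K) ≠ 0 := by
    intro h0
    have := inv_two_add
    rw [h0, zero_mul] at this
    exact zero_ne_one this
  have hx0 : normSq x ≠ 0 := by
    rcases hnx with h | h
    · rw [h]; exact mul_ne_zero (pow_ne_zero _ hε0) hβ0
    · rw [h]; exact mul_ne_zero (mul_ne_zero hns (pow_ne_zero _ hε0)) hβ0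
  have hg0 : normSq g ≠ 0 := by
    rcases hng with h | h
    · rw [h]; exact one_ne_zero
    · rw [h]; exact hps
  have hnw : normSq w = 1 := by
    have := congrArg normSq hgx
    rw [map_mul, map_mul, map_mul, map_mul, hni, mul_one] at this
    have h' : normSq g * normSq x ≠ 0 := mul_ne_zero hg0 hx0
    exact mul_right_cancel₀ h' (by rw [one_mul]; exact this.symm)
  obtain ⟨h, hhQ, hhi, x0, hx0', y0, hy0, u, hu, hxy, hhu⟩ := h3 w hwO hw0 hnw
  obtain ⟨t, t', ht, ht', hxt⟩ := hx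
  have hxQ : RQ x := by
    apply RQ_of_OS
    rw [hxt]
    exact h1.2.2.1 _ _ (h1.2.2.2.2.1 _ _ ht (h1.1 β hβ)) (h1.2.2.2.2.1 _ _ ht' (OS_e h1 σ))
  exact final hxQ hgQ hhQ hw0 hε hε' hεε hnx hng hgx hhi ⟨x0, hx0', y0, hy0, hxy⟩ hu hhu rfl

end Pool.Agent.U467.KT.TWO
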